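import Mathlib

/-!
# Additive filters on `{1, 2, 3, ...}`, relative to a family of sets and a family of families

`P` stands for the family of the sets of positive natural numbers in a model of set theory, and `Q`
for the family of the sets of such sets in the model.
-/

set_option autoImplicit false

namespace Run7.h699.AddF

/-- `a - n`. -/
def sh (a : Set ℕ+) (n : ℕ+) : Set ℕ+ := {m | m + n ∈ a}

/-- The set of all `n` with `a - n ∈ V`. -/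
def st (V : Set (Set ℕ+)) (a : Set ℕ+) : Set ℕ+ := {n | sh a n ∈ V}

/-- `H` is a filter. -/
structure Fil (P : Set (Set ℕ+)) (H : Set (Set ℕ+)) : Prop where
  sub : H ⊆ P
  univ : Set.univ ∈ H
  ne : ∅ ∉ H
  inter : ∀ a ∈ H, ∀ b ∈ H, a ∩ b ∈ H
  up : ∀ a ∈ H, ∀ b ∈ P, a ⊆ b → b ∈ H

/-- `V` is an ultrafilter. -/
structure Ult (P : Set (Set ℕ+)) (V : Set (Set ℕ+)) : Prop extends Fil P V where
  dec : ∀ a ∈ P, a ∈ V ∨ aᶜ ∈ V

/-- `H` is additive. -/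
def Adv (P : Set (Set ℕ+)) (Q : Set (Set (Set ℕ+))) (H : Set (Set ℕ+)) : Prop :=
  ∀ V ∈ Q, Ult P V → H ⊆ V → ∀ a ∈ H, st V a ∈ H

/-- Closure properties. -/
structure Sys (P : Set (Set ℕ+)) (Q : Set (Set (Set ℕ+))) : Prop where
  univ : Set.univ ∈ P
  compl : ∀ a ∈ P, aᶜ ∈ P
  inter : ∀ a ∈ P, ∀ b ∈ P, a ∩ b ∈ P
  shm : ∀ a ∈ P, ∀ n, sh a n ∈ P
  stm : ∀ V ∈ Q, ∀ a ∈ P, st V a ∈ P
  q1 : ∀ H ∈ Q, ∀ V ∈ Q, {a | a ∈ P ∧ st V a ∈ H} ∈ Q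
  q2 : ∀ H ∈ Q, ∀ b ∈ P, {a | a ∈ P ∧ a ∪ bᶜ ∈ H} ∈ Q
  q3 : ∀ H ∈ Q, ∀ V ∈ Q, ∀ W ∈ Q, {a | a ∈ P ∧ ∃ y ∈ W, a ∪ (st V y)ᶜ ∈ H} ∈ Q
  q4 : ∀ H ∈ Q, ∀ a ∈ P, ∀ y ∈ P,
    {x | x ∈ P ∧ ∃ k : ℕ, x ∪ {m | ∃ n ∈ y, (n : ℕ) < k ∧ m + n ∈ a} ∈ H} ∈ Q
  q5 : ∀ H ∈ Q, ∀ V ∈ Q, {x | x ∈ P ∧ ∃ z ∈ V, x ∪ zᶜ ∈ H} ∈ Q

/-- Maximal filters and maximal additive filters. -/
structure Zor (P : Set (Set ℕ+)) (Q : Set (Set (Set ℕ+))) : Prop where
  z1 : ∀ H ∈ Q, Fil P H → ∃ V ∈ Q, Fil P V ∧ H ⊆ V ∧ ∀ W ∈ Q, Fil P W → V ⊆ W → W ⊆ V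
  z2 : ∀ H ∈ Q, Fil P H → Adv P Q H → ∃ V ∈ Q, Fil P V ∧ Adv P Q V ∧ H ⊆ V ∧
    ∀ W ∈ Q, Fil P W → Adv P Q W → V ⊆ W → W ⊆ V

theorem mem_sh {a : Set ℕ+} {n m : ℕ+} : m ∈ sh a n ↔ m + n ∈ a := Iff.rfl

theorem mem_st {V : Set (Set ℕ+)} {a : Set ℕ+} {n : ℕ+} : n ∈ st V a ↔ sh a n ∈ V := Iff.rfl

theorem sh_inter (a b : Set ℕ+) (n : ℕ+) : sh (a ∩ b) n = sh a n ∩ sh b n := rfl

theorem sh_compl (a : Set ℕ+) (n : ℕ+) : sh aᶜ n = (sh a n)ᶜ := rfl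

theorem sh_mono {a b : Set ℕ+} (h : a ⊆ b) (n : ℕ+) : sh a n ⊆ sh b n := fun _ hm => h hm

theorem sh_sh (a : Set ℕ+) (n m : ℕ+) : sh (sh a m) n = sh a (n + m) := by
  ext k
  simp only [mem_sh, add_assoc]

section

variable {P : Set (Set ℕ+)} {Q : Set (Set (Set ℕ+))}

theorem Sys.union (hS : Sys P Q) {a b : Set ℕ+} (ha : a ∈ P) (hb : b ∈ P) : a ∪ b ∈ P := by
  have h := hS.compl _ (hS.inter _ (hS.compl _ ha) _ (hS.compl _ hb))
  rwa [Set.compl_inter, compl_compl, compl_compl] at h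

theorem Sys.empty (hS : Sys P Q) : ∅ ∈ P := by
  have h := hS.compl _ hS.univ
  rwa [Set.compl_univ] at h

/-- Filters cannot contain a set and its complement. -/
theorem Fil.nc {H : Set (Set ℕ+)} (hH : Fil P H) {a : Set ℕ+} (h1 : a ∈ H) (h2 : aᶜ ∈ H) :
    False := by
  have h := hH.inter _ h1 _ h2
  rw [Set.inter_compl_self] at h
  exact hH.ne h

theorem Ult.not_mem {V : Set (Set ℕ+)} (hV : Ult P V) {a : Set ℕ+} (ha : a ∈ P) :
    a ∉ V ↔ aᶜ ∈ V :=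
  ⟨fun h => (hV.dec a ha).resolve_left h, fun h1 h2 => hV.toFil.nc h2 h1⟩

theorem Ult.compl_mem {V : Set (Set ℕ+)} (hV : Ult P V) {a : Set ℕ+} (ha : a ∈ P) :
    aᶜ ∈ V ↔ a ∉ V := (hV.not_mem ha).symm

theorem Fil.inter_iff {V : Set (Set ℕ+)} (hV : Fil P V) {a b : Set ℕ+} (ha : a ∈ P) (hb : b ∈ P) :
    a ∩ b ∈ V ↔ a ∈ V ∧ b ∈ V :=
  ⟨fun h => ⟨hV.up _ h _ ha Set.inter_subset_left, hV.up _ h _ hb Set.inter_subset_right⟩,
    fun h => hV.inter _ h.1 _ h.2⟩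

theorem st_inter {V : Set (Set ℕ+)} (hS : Sys P Q) (hV : Fil P V) {a b : Set ℕ+} (ha : a ∈ P)
    (hb : b ∈ P) : st V (a ∩ b) = st V a ∩ st V b := by
  ext n
  simp only [mem_st, sh_inter, Set.mem_inter_iff]
  exact hV.inter_iff (hS.shm _ ha n) (hS.shm _ hb n)

theorem st_compl {V : Set (Set ℕ+)} (hS : Sys P Q) (hV : Ult P V) {a : Set ℕ+} (ha : a ∈ P) :
    st V aᶜ = (st V a)ᶜ := by
  ext n
  simp only [mem_st, sh_compl, Set.mem_compl_iff]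
  exact hV.compl_mem (hS.shm _ ha n)

theorem st_mono {V : Set (Set ℕ+)} (hS : Sys P Q) (hV : Fil P V) {a b : Set ℕ+} (hb : b ∈ P)
    (h : a ⊆ b) : st V a ⊆ st V b := fun n hn => hV.up _ hn _ (hS.shm _ hb n) (sh_mono h n)

theorem st_univ {V : Set (Set ℕ+)} (hV : Fil P V) : st V Set.univ = Set.univ := by
  ext n
  simp only [Set.mem_univ, iff_true]
  have h : sh Set.univ n = Set.univ := rfl
  exact h ▸ hV.univ

/-- The filter generated by a filter and a compatible family. -/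
theorem fil_gen (hS : Sys P Q) {H W : Set (Set ℕ+)} (hH : Fil P H) {f : Set ℕ+ → Set ℕ+}
    (hu : ∃ y ∈ W, f y = Set.univ)
    (hi : ∀ y ∈ W, ∀ z ∈ W, ∃ w ∈ W, f w ⊆ f y ∩ f z)
    (hne : ∀ y ∈ W, (f y)ᶜ ∉ H) (hfP : ∀ y ∈ W, f y ∈ P) :
    Fil P {a | a ∈ P ∧ ∃ y ∈ W, a ∪ (f y)ᶜ ∈ H} := by
  refine ⟨fun a ha => ha.1, ?_, ?_, ?_, ?_⟩
  · obtain ⟨y, hy, -⟩ := hu
    refine ⟨hS.univ, y, hy, ?_⟩
    rw [Set.univ_union]
    exact hH.univ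
  · rintro ⟨-, y, hy, h⟩
    rw [Set.empty_union] at h
    exact hne y hy h
  · rintro a ⟨ha, y, hy, h1⟩ b ⟨hb, z, hz, h2⟩
    obtain ⟨w, hw, h3⟩ := hi y hy z hz
    refine ⟨hS.inter _ ha _ hb, w, hw, ?_⟩
    refine hH.up _ (hH.inter _ h1 _ h2) _ (hS.union (hS.inter _ ha _ hb)
      (hS.compl _ (hfP w hw))) ?_
    rintro n ⟨h4, h5⟩
    by_cases h6 : n ∈ f w
    · have h7 := h3 h6
      exact Or.inl ⟨h4.resolve_right fun h => h h7.1, h5.resolve_right fun h => h h7.2⟩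
    · exact Or.inr h6
  · rintro a ⟨ha, y, hy, h1⟩ b hb h2
    exact ⟨hb, y, hy, hH.up _ h1 _ (hS.union hb (hS.compl _ (hfP y hy)))
      (Set.union_subset_union_left _ h2)⟩

/-- A set compatible with a filter can be added. -/
theorem fil_add (hS : Sys P Q) {H : Set (Set ℕ+)} (hH : Fil P H) {b : Set ℕ+} (hb : b ∈ P)
    (hn : bᶜ ∉ H) : Fil P {a | a ∈ P ∧ a ∪ bᶜ ∈ H} := by
  have h := fil_gen hS (W := {Set.univ}) (f := fun y => if y = Set.univ then b else b) hH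
  refine ⟨fun a ha => ha.1, ?_, ?_, ?_, ?_⟩
  · refine ⟨hS.univ, ?_⟩
    rw [Set.univ_union]
    exact hH.univ
  · rintro ⟨-, h⟩
    rw [Set.empty_union] at h
    exact hn h
  · rintro a ⟨ha, h1⟩ c ⟨hc, h2⟩
    refine ⟨hS.inter _ ha _ hc, ?_⟩
    have h3 := hH.inter _ h1 _ h2
    rwa [← Set.inter_union_distrib_right] at h3
  · rintro a ⟨ha, h1⟩ c hc h2
    exact ⟨hc, hH.up _ h1 _ (hS.union hc (hS.compl _ hb)) (Set.union_subset_union_left _ h2)⟩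

/-- A maximal filter is an ultrafilter. -/
theorem Zor.ut (hS : Sys P Q) (hZ : Zor P Q) {H : Set (Set ℕ+)} (hHQ : H ∈ Q) (hH : Fil P H) :
    ∃ V ∈ Q, Ult P V ∧ H ⊆ V := by
  obtain ⟨V, hVQ, hV, hHV, hmax⟩ := hZ.z1 H hHQ hH
  refine ⟨V, hVQ, ⟨hV, fun a ha => ?_⟩, hHV⟩
  by_contra hcon
  rw [not_or] at hcon
  have h1 : Fil P {x | x ∈ P ∧ x ∪ aᶜ ∈ V} := fil_add hS hV ha hcon.2
  have h2 : V ⊆ {x | x ∈ P ∧ x ∪ aᶜ ∈ V} := fun x hx =>
    ⟨hV.sub hx, hV.up _ hx _ (hS.union (hV.sub hx) (hS.compl _ ha)) Set.subset_union_left⟩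
  have h3 : a ∈ {x | x ∈ P ∧ x ∪ aᶜ ∈ V} := by
    refine ⟨ha, ?_⟩
    rw [Set.union_compl_self]
    exact hV.univ
  exact hcon.1 (hmax _ (hS.q2 _ hVQ _ ha) h1 h2 h3)

/-- The sum of two ultrafilters. -/
theorem ult_sum (hS : Sys P Q) {V W : Set (Set ℕ+)} (hVQ : V ∈ Q) (hV : Ult P V)
    (hW : Ult P W) : Ult P {a | a ∈ P ∧ st V a ∈ W} := by
  refine ⟨⟨fun a ha => ha.1, ⟨hS.univ, ?_⟩, ?_, ?_, ?_⟩, ?_⟩
  · rw [st_univ hV.toFil]
    exact hW.univ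
  · rintro ⟨-, h⟩
    have h1 : st V ∅ = ∅ := by
      ext n
      simp only [mem_st, Set.mem_empty_iff_false, iff_false]
      exact hV.ne
    rw [h1] at h
    exact hW.ne h
  · rintro a ⟨ha, h1⟩ b ⟨hb, h2⟩
    refine ⟨hS.inter _ ha _ hb, ?_⟩
    rw [st_inter hS hV.toFil ha hb]
    exact hW.inter _ h1 _ h2
  · rintro a ⟨ha, h1⟩ b hb h2
    exact ⟨hb, hW.up _ h1 _ (hS.stm _ hVQ _ hb) (st_mono hS hV.toFil hb h2)⟩
  · intro a ha
    rcases hW.dec _ (hS.stm _ hVQ _ ha) with h | h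
    · exact Or.inl ⟨ha, h⟩
    · right
      refine ⟨hS.compl _ ha, ?_⟩
      rwa [st_compl hS hV ha]

/-- The sum of a filter and an ultrafilter. -/
theorem fil_sum (hS : Sys P Q) {V H : Set (Set ℕ+)} (hVQ : V ∈ Q) (hV : Ult P V)
    (hH : Fil P H) : Fil P {a | a ∈ P ∧ st V a ∈ H} := by
  refine ⟨fun a ha => ha.1, ⟨hS.univ, ?_⟩, ?_, ?_, ?_⟩
  · rw [st_univ hV.toFil]
    exact hH.univ
  · rintro ⟨-, h⟩
    have h1 : st V ∅ = ∅ := by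
      ext n
      simp only [mem_st, Set.mem_empty_iff_false, iff_false]
      exact hV.ne
    rw [h1] at h
    exact hH.ne h
  · rintro a ⟨ha, h1⟩ b ⟨hb, h2⟩
    refine ⟨hS.inter _ ha _ hb, ?_⟩
    rw [st_inter hS hV.toFil ha hb]
    exact hH.inter _ h1 _ h2
  · rintro a ⟨ha, h1⟩ b hb h2
    exact ⟨hb, hH.up _ h1 _ (hS.stm _ hVQ _ hb) (st_mono hS hV.toFil hb h2)⟩

theorem sh_st (V : Set (Set ℕ+)) (a : Set ℕ+) (n : ℕ+) : sh (st V a) n = st V (sh a n) := by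
  ext m
  simp only [mem_sh, mem_st, sh_sh]

theorem Ult.eq_of_sub {V W : Set (Set ℕ+)} (hV : Ult P V) (hW : Ult P W) (h : V ⊆ W) {a : Set ℕ+}
    (ha : a ∈ P) : a ∈ W ↔ a ∈ V := by
  refine ⟨fun h1 => ?_, fun h1 => h h1⟩
  by_contra h2
  exact hW.toFil.nc h1 (h ((hV.not_mem ha).1 h2))

/-- **Every additive filter is contained in an idempotent ultrafilter.** -/
theorem exists_idem (hS : Sys P Q) (hZ : Zor P Q) {H₀ : Set (Set ℕ+)} (hQ₀ : H₀ ∈ Q)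
    (hF₀ : Fil P H₀) (hA₀ : Adv P Q H₀) :
    ∃ V ∈ Q, Ult P V ∧ H₀ ⊆ V ∧ ∀ a ∈ V, st V a ∈ V := by
  obtain ⟨H, hHQ, hH, hHA, hH₀, hmax⟩ := hZ.z2 H₀ hQ₀ hF₀ hA₀
  obtain ⟨V, hVQ, hV, hHV⟩ := hZ.ut hS hHQ hH
  refine ⟨V, hVQ, hV, hH₀.trans hHV, ?_⟩
  -- `H ⊕ V = H`
  have hsum : {a | a ∈ P ∧ st V a ∈ H} ⊆ H := by
    have hK := fil_sum hS hVQ hV hH
    have hHK : H ⊆ {a | a ∈ P ∧ st V a ∈ H} := fun a ha => ⟨hH.sub ha, hHA V hVQ hV hHV a ha⟩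
    refine hmax _ (hS.q1 _ hHQ _ hVQ) hK ?_ hHK
    rintro W hWQ hW hKW a ⟨ha, ha'⟩
    refine ⟨hS.stm _ hWQ _ ha, ?_⟩
    -- an ultrafilter `p` with `W = p ⊕ V`
    have hp : Fil P {x | x ∈ P ∧ ∃ y ∈ W, x ∪ (st V y)ᶜ ∈ H} := by
      refine fil_gen hS (f := st V) hH ⟨Set.univ, hW.univ, st_univ hV.toFil⟩ ?_ ?_
        fun y hy => hS.stm _ hVQ _ (hW.sub hy)
      · intro y hy z hz
        refine ⟨y ∩ z, hW.inter _ hy _ hz, ?_⟩
        rw [st_inter hS hV.toFil (hW.sub hy) (hW.sub hz)]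
      · intro y hy h
        rw [← st_compl hS hV (hW.sub hy)] at h
        exact hW.toFil.nc hy (hKW ⟨hS.compl _ (hW.sub hy), h⟩)
    obtain ⟨p, hpQ, hpU, hpp⟩ := hZ.ut hS (hS.q3 _ hHQ _ hVQ _ hWQ) hp
    have hHp : H ⊆ p := fun x hx => hpp ⟨hH.sub hx, Set.univ, hW.univ, hH.up _ hx _
      (hS.union (hH.sub hx) (hS.compl _ (hS.stm _ hVQ _ hS.univ))) Set.subset_union_left⟩
    have hWp : ∀ y ∈ P, (y ∈ W ↔ st V y ∈ p) := by
      have h1 : ∀ y ∈ W, st V y ∈ p := fun y hy => hpp ⟨hS.stm _ hVQ _ (hW.sub hy), y, hy, by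
        rw [Set.union_compl_self]
        exact hH.univ⟩
      intro y hy
      refine ⟨h1 y, fun h => ?_⟩
      by_contra h2
      have h3 := h1 _ ((hW.not_mem hy).1 h2)
      rw [st_compl hS hV hy] at h3
      exact hpU.toFil.nc h h3
    -- the ultrafilter `V ⊕ p`
    have hVp := ult_sum hS hpQ hpU hV
    have hHVp : H ⊆ {x | x ∈ P ∧ st p x ∈ V} := fun x hx =>
      ⟨hH.sub hx, hHV (hHA p hpQ hpU hHp x hx)⟩
    have h4 := hHA _ (hS.q1 _ hVQ _ hpQ) hVp hHVp _ ha'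
    refine hH.up _ h4 _ (hS.stm _ hVQ _ (hS.stm _ hWQ _ ha)) ?_
    intro m hm
    rw [mem_st, sh_st]
    obtain ⟨-, hm⟩ := hm
    have h5 : st W (sh a m) = st p (sh (st V a) m) := by
      ext n
      rw [mem_st, mem_st, hWp _ (hS.shm _ (hS.shm _ ha m) n), sh_st, sh_st]
    rw [h5]
    exact hm
  -- `V` is idempotent
  have hV2 : ∀ y ∈ V, (st V y)ᶜ ∉ H := by
    intro y hy h
    rw [← st_compl hS hV (hV.sub hy)] at h
    exact hV.toFil.nc hy (hHV (hsum ⟨hS.compl _ (hV.sub hy), h⟩))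
  have hK : Fil P {x | x ∈ P ∧ ∃ y ∈ V, x ∪ (st V y)ᶜ ∈ H} := by
    refine fil_gen hS (f := st V) hH ⟨Set.univ, hV.univ, st_univ hV.toFil⟩ ?_ hV2
      fun y hy => hS.stm _ hVQ _ (hV.sub hy)
    intro y hy z hz
    refine ⟨y ∩ z, hV.inter _ hy _ hz, ?_⟩
    rw [st_inter hS hV.toFil (hV.sub hy) (hV.sub hz)]
  have hHK : H ⊆ {x | x ∈ P ∧ ∃ y ∈ V, x ∪ (st V y)ᶜ ∈ H} := fun x hx =>
    ⟨hH.sub hx, Set.univ, hV.univ, hH.up _ hx _
      (hS.union (hH.sub hx) (hS.compl _ (hS.stm _ hVQ _ hS.univ))) Set.subset_union_left⟩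
  have hVK : ∀ y ∈ V, st V y ∈ {x | x ∈ P ∧ ∃ y ∈ V, x ∪ (st V y)ᶜ ∈ H} := fun y hy =>
    ⟨hS.stm _ hVQ _ (hV.sub hy), y, hy, by
      rw [Set.union_compl_self]
      exact hH.univ⟩
  have hKH := hmax _ (hS.q3 _ hHQ _ hVQ _ hVQ) hK (by
    rintro W hWQ hW hKW a ⟨ha, y, hy, h1⟩
    refine ⟨hS.stm _ hWQ _ ha, y, hy, ?_⟩
    have h2 := hHA W hWQ hW (hHK.trans hKW) _ h1
    have hcP := hS.compl _ (hS.stm _ hVQ _ (hV.sub hy))
    refine hH.up _ h2 _ (hS.union (hS.stm _ hWQ _ ha) hcP) ?_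
    intro n hn
    rw [mem_st] at hn
    by_cases h3 : n ∈ st V y
    · left
      rw [mem_st]
      have h4 : sh (st V y) n ∈ W := by
        rw [sh_st]
        exact hKW (hVK _ h3)
      refine hW.up _ (hW.inter _ hn _ h4) _ (hS.shm _ ha n) ?_
      rintro m ⟨h5, h6⟩
      exact h5.resolve_right fun h => h h6
    · exact Or.inr h3) hHK
  exact fun a ha => hHV (hKH (hVK a ha))

end

/-- **Deciding a set.** Here `(P, Q)` stands for the model and `(P', Q')` for an inner model of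
choice. -/
theorem decide {P P' : Set (Set ℕ+)} {Q Q' : Set (Set (Set ℕ+))} (hS : Sys P Q) (hS' : Sys P' Q')
    (hZ : Zor P' Q') (hP : P' ⊆ P) (hQ : Q' ⊆ Q) {F : Set (Set ℕ+)} (hFQ : F ∈ Q) (hF : Fil P F)
    (hFA : Adv P Q F) {b : Set ℕ+} (hb : b ∈ P') (hFQ' : {a | a ∈ F ∧ a ∈ P'} ∈ Q') :
    ∃ G ∈ Q, Fil P G ∧ Adv P Q G ∧ F ⊆ G ∧ (b ∈ G ∨ bᶜ ∈ G) := by
  by_cases hcase : ∃ G ∈ Q, Fil P G ∧ F ⊆ G ∧ (b ∈ G ∨ bᶜ ∈ G) ∧ ¬ ∃ V ∈ Q, Ult P V ∧ G ⊆ V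
  · obtain ⟨G, hGQ, hG, hFG, hGb, hno⟩ := hcase
    exact ⟨G, hGQ, hG, fun V hVQ hV hGV => absurd ⟨V, hVQ, hV, hGV⟩ hno, hFG, hGb⟩
  have hut : ∀ G ∈ Q, Fil P G → F ⊆ G → (b ∈ G ∨ bᶜ ∈ G) → ∃ V ∈ Q, Ult P V ∧ G ⊆ V := by
    intro G h1 h2 h3 h4
    by_contra h5
    exact hcase ⟨G, h1, h2, h3, h4, h5⟩
  have hbP : b ∈ P := hP hb
  -- combinatorial additivity
  have hCA : ∀ a ∈ F, ∀ y ∈ P, yᶜ ∉ F →
      ∃ k : ℕ, {m | ∃ n ∈ y, (n : ℕ) < k ∧ m + n ∈ a} ∈ F := by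
    intro a ha y hy hyF
    by_contra hcon
    push Not at hcon
    have haP := hF.sub ha
    set U : ℕ → Set ℕ+ := fun k => {m | ∃ n ∈ y, (n : ℕ) < k ∧ m + n ∈ a} with hU
    have hUm : ∀ {k l : ℕ}, k ≤ l → U k ⊆ U l := by
      rintro k l hkl m ⟨n, h1, h2, h3⟩
      exact ⟨n, h1, h2.trans_le hkl, h3⟩
    set G₀ : Set (Set ℕ+) := {x | x ∈ P ∧ ∃ k : ℕ, x ∪ U k ∈ F} with hG₀
    have hUP : ∀ k, U k ∈ P := by
      intro k
      induction k with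
      | zero =>
        have h1 : U 0 = ∅ := by
          ext m
          simp [hU]
        rw [h1]
        exact hS.empty
      | succ k ih =>
        by_cases hk : ∃ n ∈ y, (n : ℕ) = k
        · obtain ⟨n, hn, hnk⟩ := hk
          have h1 : U (k + 1) = U k ∪ sh a n := by
            ext m
            constructor
            · rintro ⟨n', h1, h2, h3⟩
              rcases Nat.lt_succ_iff_lt_or_eq.1 h2 with h4 | h4
              · exact Or.inl ⟨n', h1, h4, h3⟩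
              · have h5 : n' = n := PNat.coe_injective (h4.trans hnk.symm)
                subst h5
                exact Or.inr h3
            · rintro (⟨n', h1, h2, h3⟩ | h1)
              · exact ⟨n', h1, h2.trans (Nat.lt_succ_self k), h3⟩
              · exact ⟨n, hn, by omega, h1⟩
          rw [h1]
          exact hS.union ih (hS.shm _ haP n)
        · have h1 : U (k + 1) = U k := by
            refine Set.Subset.antisymm ?_ (hUm (Nat.le_succ k))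
            rintro m ⟨n', h1, h2, h3⟩
            rcases Nat.lt_succ_iff_lt_or_eq.1 h2 with h4 | h4
            · exact ⟨n', h1, h4, h3⟩
            · exact absurd ⟨n', h1, h4⟩ hk
          rw [h1]
          exact ih
    have hG₀Q : G₀ ∈ Q := hS.q4 F hFQ a haP y hy
    have hG₀F : Fil P G₀ := by
      refine ⟨fun x hx => hx.1, ⟨hS.univ, 0, ?_⟩, ?_, ?_, ?_⟩
      · rw [Set.univ_union]
        exact hF.univ
      · rintro ⟨-, k, hk⟩
        rw [Set.empty_union] at hk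
        exact hcon k hk
      · rintro x ⟨hx, k, h1⟩ z ⟨hz, l, h2⟩
        refine ⟨hS.inter _ hx _ hz, max k l, ?_⟩
        refine hF.up _ (hF.inter _ h1 _ h2) _ (hS.union (hS.inter _ hx _ hz) (hUP _)) ?_
        rintro m ⟨h3, h4⟩
        rcases h3 with h3 | h3
        · rcases h4 with h4 | h4
          · exact Or.inl ⟨h3, h4⟩
          · exact Or.inr (hUm (le_max_right k l) h4)
        · exact Or.inr (hUm (le_max_left k l) h3)
      · rintro x ⟨hx, k, h1⟩ z hz h2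
        exact ⟨hz, k, hF.up _ h1 _ (hS.union hz (hUP k)) (Set.union_subset_union_left _ h2)⟩
    have hFG₀ : F ⊆ G₀ := fun x hx => ⟨hF.sub hx, 0, hF.up _ hx _ (hS.union (hF.sub hx) (hUP 0))
      Set.subset_union_left⟩
    -- an ultrafilter above
    obtain ⟨V, hVQ, hV, hGV⟩ : ∃ V ∈ Q, Ult P V ∧ G₀ ⊆ V := by
      by_cases hbc : bᶜ ∈ G₀
      · exact hut G₀ hG₀Q hG₀F hFG₀ (Or.inr hbc)
      · have h1 := fil_add hS hG₀F hbP hbc
        have h2 : G₀ ⊆ {x | x ∈ P ∧ x ∪ bᶜ ∈ G₀} := fun x hx =>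
          ⟨hG₀F.sub hx, hG₀F.up _ hx _ (hS.union (hG₀F.sub hx) (hS.compl _ hbP))
            Set.subset_union_left⟩
        obtain ⟨V, h3, h4, h5⟩ := hut _ (hS.q2 _ hG₀Q _ hbP) h1 (hFG₀.trans h2) (Or.inl ⟨hbP, by
          rw [Set.union_compl_self]
          exact hG₀F.univ⟩)
        exact ⟨V, h3, h4, h2.trans h5⟩
    have hst := hFA V hVQ hV (hFG₀.trans hGV) a ha
    have hmeet : ∃ n ∈ y, n ∈ st V a := by
      by_contra h
      push Not at h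
      refine hyF (hF.up _ hst _ (hS.compl _ hy) fun n hn hn' => h n hn' hn)
    obtain ⟨n, hny, hn⟩ := hmeet
    refine hV.toFil.nc hn (hGV ⟨hS.compl _ (hS.shm _ haP n), (n : ℕ) + 1, ?_⟩)
    have h1 : (sh a n)ᶜ ∪ U ((n : ℕ) + 1) = Set.univ := by
      refine Set.eq_univ_of_forall fun m => ?_
      by_cases hm : m ∈ sh a n
      · exact Or.inr ⟨n, hny, Nat.lt_succ_self _, hm⟩
      · exact Or.inl hm
    rw [h1]
    exact hF.univ
  -- the restriction to the inner model is additive there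
  set F' : Set (Set ℕ+) := {a | a ∈ F ∧ a ∈ P'} with hF'
  have hF'F : Fil P' F' := by
    refine ⟨fun a ha => ha.2, ⟨hF.univ, hS'.univ⟩, fun h => hF.ne h.1, ?_, ?_⟩
    · rintro a ⟨h1, h2⟩ c ⟨h3, h4⟩
      exact ⟨hF.inter _ h1 _ h3, hS'.inter _ h2 _ h4⟩
    · rintro a ⟨h1, h2⟩ c hc h3
      exact ⟨hF.up _ h1 _ (hP hc) h3, hc⟩
  have hF'A : Adv P' Q' F' := by
    rintro V hVQ hV hFV a ⟨ha, haP'⟩
    have hstP' := hS'.stm _ hVQ _ haP'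
    refine ⟨?_, hstP'⟩
    by_contra hst
    obtain ⟨k, hk⟩ := hCA a ha (st V a)ᶜ (hS.compl _ (hP hstP')) (by rwa [compl_compl])
    have hind : ∀ k : ℕ, {m | ∃ n ∈ (st V a)ᶜ, (n : ℕ) < k ∧ m + n ∈ a} ∈ P' ∧
        {m | ∃ n ∈ (st V a)ᶜ, (n : ℕ) < k ∧ m + n ∈ a} ∉ V := by
      intro k
      induction k with
      | zero =>
        have h1 : {m : ℕ+ | ∃ n ∈ (st V a)ᶜ, (n : ℕ) < 0 ∧ m + n ∈ a} = ∅ := by
          ext m
          simp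
        rw [h1]
        exact ⟨hS'.empty, hV.ne⟩
      | succ k ih =>
        by_cases hk : ∃ n ∈ (st V a)ᶜ, (n : ℕ) = k
        · obtain ⟨n, hn, hnk⟩ := hk
          have h1 : {m : ℕ+ | ∃ n ∈ (st V a)ᶜ, (n : ℕ) < k + 1 ∧ m + n ∈ a} =
              {m : ℕ+ | ∃ n ∈ (st V a)ᶜ, (n : ℕ) < k ∧ m + n ∈ a} ∪ sh a n := by
            ext m
            constructor
            · rintro ⟨n', h1, h2, h3⟩
              rcases Nat.lt_succ_iff_lt_or_eq.1 h2 with h4 | h4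
              · exact Or.inl ⟨n', h1, h4, h3⟩
              · have h5 : n' = n := PNat.coe_injective (h4.trans hnk.symm)
                subst h5
                exact Or.inr h3
            · rintro (⟨n', h1, h2, h3⟩ | h1)
              · exact ⟨n', h1, h2.trans (Nat.lt_succ_self k), h3⟩
              · exact ⟨n, hn, by omega, h1⟩
          rw [h1]
          refine ⟨hS'.union ih.1 (hS'.shm _ haP' n), fun h => ?_⟩
          have h2 : sh a n ∉ V := hn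
          have h3 := hV.inter _ ((hV.not_mem ih.1).1 ih.2) _
            ((hV.not_mem (hS'.shm _ haP' n)).1 h2)
          rw [← Set.compl_union] at h3
          exact hV.toFil.nc h h3
        · have h1 : {m : ℕ+ | ∃ n ∈ (st V a)ᶜ, (n : ℕ) < k + 1 ∧ m + n ∈ a} =
              {m : ℕ+ | ∃ n ∈ (st V a)ᶜ, (n : ℕ) < k ∧ m + n ∈ a} := by
            ext m
            constructor
            · rintro ⟨n', h1, h2, h3⟩
              rcases Nat.lt_succ_iff_lt_or_eq.1 h2 with h4 | h4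
              · exact ⟨n', h1, h4, h3⟩
              · exact absurd ⟨n', h1, h4⟩ hk
            · rintro ⟨n', h1, h2, h3⟩
              exact ⟨n', h1, h2.trans (Nat.lt_succ_self k), h3⟩
          rw [h1]
          exact ih
    exact (hind k).2 (hFV ⟨hk, (hind k).1⟩)
  obtain ⟨V, hVQ', hV, hF'V, hid⟩ := exists_idem hS' hZ hFQ' hF'F hF'A
  have hVQ := hQ hVQ'
  -- the filter generated by `F` and `V`
  have hGfil : Fil P {x | x ∈ P ∧ ∃ z ∈ V, x ∪ zᶜ ∈ F} := by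
    refine fil_gen hS (f := fun z => z) hF ⟨Set.univ, hV.univ, rfl⟩ ?_ ?_
      fun y hy => hP (hV.sub hy)
    · exact fun y hy z hz => ⟨y ∩ z, hV.inter _ hy _ hz, subset_rfl⟩
    · intro y hy h
      exact hV.toFil.nc hy (hF'V ⟨h, hS'.compl _ (hV.sub hy)⟩)
  have hFG : F ⊆ {x | x ∈ P ∧ ∃ z ∈ V, x ∪ zᶜ ∈ F} := fun x hx => ⟨hF.sub hx, Set.univ, hV.univ,
    hF.up _ hx _ (hS.union (hF.sub hx) (hS.compl _ hS.univ)) Set.subset_union_left⟩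
  have hVG : V ⊆ {x | x ∈ P ∧ ∃ z ∈ V, x ∪ zᶜ ∈ F} := fun x hx => ⟨hP (hV.sub hx), x, hx, by
    rw [Set.union_compl_self]
    exact hF.univ⟩
  refine ⟨_, hS.q5 F hFQ V hVQ, hGfil, ?_, hFG, ?_⟩
  · rintro W hWQ hW hGW a ⟨ha, z, hz, h1⟩
    refine ⟨hS.stm _ hWQ _ ha, st V z, hid z hz, ?_⟩
    have h2 := hFA W hWQ hW (hFG.trans hGW) _ h1
    refine hF.up _ h2 _ (hS.union (hS.stm _ hWQ _ ha) (hS.compl _ (hP (hV.sub (hid z hz))))) ?_
    intro n hn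
    rw [mem_st] at hn
    by_cases h3 : n ∈ st V z
    · left
      rw [mem_st] at h3 ⊢
      refine hW.up _ (hW.inter _ hn _ (hGW (hVG h3))) _ (hS.shm _ ha n) ?_
      rintro m ⟨h5, h6⟩
      exact h5.resolve_right fun h => h h6
    · exact Or.inr h3
  · rcases hV.dec b hb with h | h
    · exact Or.inl (hVG h)
    · exact Or.inr (hVG h)

end Run7.h699.AddF
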