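import Pool.Agent.W868.Eo

/-!
# Zorn's lemma in a transitive model with a definable injection into the ordinals
-/

set_option autoImplicit false

namespace Run7.h699.AddF

open Pool.Agent.W868
open ZFSet (pair)

/-- The elements of `T` that come before `z`. -/
noncomputable def prd (e : ZFSet.{0} → ZFSet.{0}) (T z : ZFSet.{0}) : ZFSet.{0} :=
  ZFSet.sep (fun y => e y ∈ e z) T

theorem prd_wf (e : ZFSet.{0} → ZFSet.{0}) (T : ZFSet.{0}) :
    WellFounded fun u z => u ∈ prd e T z :=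
  Subrelation.wf (fun h => (ZFSet.mem_sep.1 h).2) (InvImage.wf e ZFSet.mem_wf)

open Classical in
/-- One step of the recursion. -/
noncomputable def gst (e : ZFSet.{0} → ZFSet.{0}) (T z g : ZFSet.{0}) : ZFSet.{0} :=
  if ∀ y ∈ prd e T z, pair y {∅} ∈ g → (y ⊆ z ∨ z ⊆ y) then {∅} else ∅

/-- The characteristic function of a maximal chain. -/
noncomputable def good (e : ZFSet.{0} → ZFSet.{0}) (T : ZFSet.{0}) : ZFSet.{0} → ZFSet.{0} :=
  wfF (prd e T) (prd_wf e T) (gst e T)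

theorem single_ne : ({∅} : ZFSet.{0}) ≠ ∅ := by
  intro h
  have h1 : (∅ : ZFSet.{0}) ∈ ({∅} : ZFSet.{0}) := ZFSet.mem_singleton.2 rfl
  rw [h] at h1
  exact ZFSet.notMem_empty _ h1

theorem good_iff {e : ZFSet.{0} → ZFSet.{0}} {T z : ZFSet.{0}} : good e T z = {∅} ↔
    ∀ y ∈ T, e y ∈ e z → good e T y = {∅} → (y ⊆ z ∨ z ⊆ y) := by
  have h1 : good e T z = gst e T z (gr (good e T) (prd e T z)) := wfF_eq _ _ _ _
  rw [h1, gst]
  have h2 : (∀ y ∈ prd e T z, pair y {∅} ∈ gr (good e T) (prd e T z) → (y ⊆ z ∨ z ⊆ y)) ↔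
      ∀ y ∈ T, e y ∈ e z → good e T y = {∅} → (y ⊆ z ∨ z ⊆ y) := by
    constructor
    · intro h y hy h3 h4
      have h5 : y ∈ prd e T z := ZFSet.mem_sep.2 ⟨hy, h3⟩
      exact h y h5 (pair_mem_gr.2 ⟨h5, h4.symm⟩)
    · intro h y hy h3
      obtain ⟨h4, h5⟩ := ZFSet.mem_sep.1 hy
      exact h y h4 h5 (pair_mem_gr.1 h3).2.symm
  by_cases h3 : ∀ y ∈ T, e y ∈ e z → good e T y = {∅} → (y ⊆ z ∨ z ⊆ y)
  · rw [if_pos (h2.2 h3)]
    exact ⟨fun _ => h3, fun _ => rfl⟩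
  · rw [if_neg fun h => h3 (h2.1 h)]
    exact ⟨fun h => absurd h.symm single_ne, fun h => absurd h h3⟩

/-- **Zorn's lemma in a model.** -/
theorem zornC {C : Set ZFSet.{0}} (hM : IsZF C) {e : ZFSet.{0} → ZFSet.{0}} (hg : GC C e)
    {T : ZFSet.{0}} (hT : T ∈ C) (hne : ∃ x, x ∈ T)
    (hch : ∀ K ∈ C, K ⊆ T → (∃ x, x ∈ K) → (∀ x ∈ K, ∀ y ∈ K, x ⊆ y ∨ y ⊆ x) →
      (ZFSet.sUnion K : ZFSet.{0}) ∈ T) : ∃ m ∈ T, ∀ z ∈ T, m ⊆ z → z ⊆ m := by
  have hB := hM.base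
  have he : ∀ {m : ℕ} (i : Fin m), DfnF C C fun w : Fin m → ZFSet.{0} => e (w i) := fun i =>
    DfnF.comp1 (f := e) hg.dfn (DfnF.proj i)
  have hpr : ∀ {m : ℕ} (i : Fin m), DfnF C C fun w : Fin m → ZFSet.{0} => prd e T (w i) :=
    fun {m} i => hM.sep' (F := fun _ : Fin m → ZFSet.{0} => T) (Q := fun y w => e y ∈ e (w i))
      (DfnF.const hT) (Dfn.mem (he 0) (he i.succ))
  have h0 := hM.empty_mem
  have h1 := hM.single_mem h0
  have hG : DfnF C C fun w : Fin 2 → ZFSet.{0} => gst e T (w 0) (w 1) := by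
    unfold gst
    refine DfnF.ite ?_ (DfnF.const h1) (DfnF.const h0)
    apply hB.ball (hpr 0)
    apply Dfn.imp
    · exact Dfn.mem (hB.pair' (DfnF.proj 0) (DfnF.const h1)) (DfnF.proj 2)
    · exact (hB.subset' (DfnF.proj 0) (DfnF.proj 1)).or (hB.subset' (DfnF.proj 1) (DfnF.proj 0))
  have hgood : DfnF C C fun w : Fin 1 → ZFSet.{0} => good e T (w 0) :=
    hM.wfrec (prd_wf e T) (hpr 0) hG fun z => wfF_eq _ _ _ _
  set K : ZFSet.{0} := ZFSet.sep (fun z => good e T z = {∅}) T with hK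
  have hKC : K ∈ C := hM.sep_mem (Q := fun z => good e T z = {∅})
    (Dfn.eq hgood (DfnF.const h1)) hT
  have hKT : K ⊆ T := fun z hz => (ZFSet.mem_sep.1 hz).1
  have hcmp : ∀ x ∈ K, ∀ y ∈ K, x ⊆ y ∨ y ⊆ x := by
    intro x hx y hy
    obtain ⟨hxT, hx⟩ := ZFSet.mem_sep.1 hx
    obtain ⟨hyT, hy⟩ := ZFSet.mem_sep.1 hy
    rcases (hg.ord x).mem_trichotomous (hg.ord y) with h | h | h
    · exact good_iff.1 hy x hxT h hx
    · left
      rw [hg.inj x (hM.trans _ hT _ hxT) y (hM.trans _ hT _ hyT) h]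
    · exact (good_iff.1 hx y hyT h hy).symm
  have hmaxK : ∀ z ∈ T, (∀ y ∈ K, y ⊆ z ∨ z ⊆ y) → z ∈ K := fun z hz h =>
    ZFSet.mem_sep.2 ⟨hz, good_iff.2 fun y hy _ h3 => h y (ZFSet.mem_sep.2 ⟨hy, h3⟩)⟩
  have hKne : ∃ x, x ∈ K := by
    by_contra h
    push Not at h
    obtain ⟨x, hx⟩ := hne
    exact h x (hmaxK x hx fun y hy => absurd hy (h y))
  have hm := hch K hKC hKT hKne hcmp
  refine ⟨_, hm, fun z hz hmz => ?_⟩
  have hzK : z ∈ K := hmaxK z hz fun y hy => Or.inl fun u hu =>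
    hmz (ZFSet.mem_sUnion.2 ⟨y, hy, hu⟩)
  exact fun u hu => ZFSet.mem_sUnion.2 ⟨z, hzK, hu⟩

end Run7.h699.AddF
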