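import Pool.Agent.Run7.h699.AddF.Enc
import Pool.Agent.Run7.h699.AddF.Zorn

/-!
# Closure properties of the sets and families of sets of a transitive model
-/

set_option autoImplicit false

namespace Run7.h699.AddF

open Pool.Agent.W868 Pool.Agent.R602.IU
open ZFSet (pair)

/-- The sets of positive natural numbers in `M`. -/
def Re (M : Set ZFSet.{0}) : Set (Set ℕ+) := {a | enc a ∈ M}

/-- The families of sets of positive natural numbers in `M`. -/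
def Fa (M : Set ZFSet.{0}) : Set (Set (Set ℕ+)) := {H | ∃ D ∈ M, H = un D}

theorem memC {M : Set ZFSet.{0}} {x : ZFSet.{0}} (h : DfnF M M fun _ : Fin 0 → ZFSet.{0} => x) :
    x ∈ M := h.1 Fin.elim0 fun i => i.elim0

section sys

variable {M : Set ZFSet.{0}} (hM : IsZF M)

include hM

theorem un_sub {D : ZFSet.{0}} (hD : D ∈ M) {a : Set ℕ+} (h : a ∈ un D) : a ∈ Re M :=
  hM.trans _ hD _ h

omit hM in
theorem enc_mem_Pw {Pw : ZFSet.{0}} (hPw : ∀ z, z ∈ Pw ↔ z ∈ M ∧ z ⊆ Pn) {a : Set ℕ+} :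
    enc a ∈ Pw ↔ a ∈ Re M := by
  rw [hPw]
  exact ⟨fun h => h.1, fun h => ⟨h, enc_sub a⟩⟩

theorem fa_sep {Pw : ZFSet.{0}} (hPM : Pw ∈ M) (hPw : ∀ z, z ∈ Pw ↔ z ∈ M ∧ z ⊆ Pn)
    {R : ZFSet.{0} → Prop} (hR : Dfn M M fun w : Fin 1 → ZFSet.{0} => R (w 0))
    {H : Set (Set ℕ+)} (h : ∀ a, a ∈ H ↔ a ∈ Re M ∧ R (enc a)) : H ∈ Fa M := by
  refine ⟨ZFSet.sep R Pw, hM.sep_mem hR hPM, ?_⟩
  ext a
  rw [h, un, Set.mem_ofPred_eq, ZFSet.mem_sep, enc_mem_Pw hPw]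

theorem sysM : Sys (Re M) (Fa M) := by
  have hB := hM.base
  obtain ⟨Pw, hPM, hPw⟩ := hM.exists_pow (Pn_mem hM)
  have hc : ∀ {m : ℕ} {x : ZFSet.{0}}, x ∈ M → DfnF M M fun _ : Fin m → ZFSet.{0} => x :=
    fun h => DfnF.const h
  have hcompl : ∀ a ∈ Re M, aᶜ ∈ Re M := by
    intro a ha
    rw [Re, Set.mem_ofPred_eq, ← enc_compl]
    exact memC (cD' hM (hc ha))
  have hdec : ∀ y ∈ Pw, enc (dec y) = y := fun y hy => enc_dec ((hPw y).1 hy).2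
  refine ⟨Pn_mem hM, hcompl, ?_, ?_, ?_, ?_, ?_, ?_, ?_, ?_⟩
  · intro a ha b hb
    rw [Re, Set.mem_ofPred_eq, ← enc_inter]
    exact memC (iD' hM (hc ha) (hc hb))
  · intro a ha n
    rw [Re, Set.mem_ofPred_eq, ← enc_sh]
    exact memC (shD' hM (hc ha) (hc (hM.nat_mem n)))
  · rintro _ ⟨D, hD, rfl⟩ a ha
    rw [Re, Set.mem_ofPred_eq, ← enc_st]
    exact memC (stD' hM (hc hD) (hc ha))
  · rintro _ ⟨D, hD, rfl⟩ _ ⟨E, hE, rfl⟩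
    refine fa_sep hM hPM hPw (R := fun x => stD E x ∈ D)
      (Dfn.mem (stD' hM (hc hE) (DfnF.proj 0)) (hc hD)) fun a => ?_
    rw [enc_st]
    exact Iff.rfl
  · rintro _ ⟨D, hD, rfl⟩ b hb
    refine fa_sep hM hPM hPw (R := fun x => x ∪ enc bᶜ ∈ D)
      (Dfn.mem (hB.union' (DfnF.proj 0) (hc (hcompl b hb))) (hc hD)) fun a => ?_
    rw [← enc_union]
    exact Iff.rfl
  · rintro _ ⟨D, hD, rfl⟩ _ ⟨E, hE, rfl⟩ _ ⟨W, hW, rfl⟩
    refine fa_sep hM hPM hPw (R := fun x => ∃ y ∈ W, y ∈ Pw ∧ x ∪ cD (stD E y) ∈ D)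
      ?_ fun a => ?_
    · apply hB.bex (hc hW)
      apply Dfn.and (Dfn.mem (DfnF.proj 0) (hc hPM))
      exact Dfn.mem (hB.union' (DfnF.proj 1) (cD' hM (stD' hM (hc hE) (DfnF.proj 0)))) (hc hD)
    · refine and_congr_right fun ha => ?_
      constructor
      · rintro ⟨y, hy, h⟩
        refine ⟨enc y, hy, (enc_mem_Pw hPw).2 (un_sub hM hW hy), ?_⟩
        rw [enc_st, enc_compl, ← enc_union]
        exact h
      · rintro ⟨y, hy, hyP, h⟩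
        have h1 := hdec y hyP
        rw [← h1, enc_st, enc_compl, ← enc_union] at h
        refine ⟨dec y, ?_, h⟩
        rw [un, Set.mem_ofPred_eq, h1]
        exact hy
  · rintro _ ⟨D, hD, rfl⟩ a ha y hy
    refine fa_sep hM hPM hPw (R := fun x => ∃ k ∈ ZFSet.omega, x ∪ uD (enc a) (enc y) k ∈ D)
      ?_ fun x => ?_
    · apply hB.bex (hc hM.infinity)
      exact Dfn.mem (hB.union' (DfnF.proj 1) (uD' hM (hc ha) (hc hy) (DfnF.proj 0))) (hc hD)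
    · refine and_congr_right fun _ => ?_
      constructor
      · rintro ⟨k, h⟩
        refine ⟨nat k, nat_mem_omega k, ?_⟩
        rw [enc_u, ← enc_union]
        exact h
      · rintro ⟨k, hk, h⟩
        obtain ⟨k, rfl⟩ := mem_omega_iff.1 hk
        rw [enc_u, ← enc_union] at h
        exact ⟨k, h⟩
  · rintro _ ⟨D, hD, rfl⟩ _ ⟨V, hV, rfl⟩
    refine fa_sep hM hPM hPw (R := fun x => ∃ z ∈ V, z ∈ Pw ∧ x ∪ cD z ∈ D) ?_ fun x => ?_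
    · apply hB.bex (hc hV)
      apply Dfn.and (Dfn.mem (DfnF.proj 0) (hc hPM))
      exact Dfn.mem (hB.union' (DfnF.proj 1) (cD' hM (DfnF.proj 0))) (hc hD)
    · refine and_congr_right fun _ => ?_
      constructor
      · rintro ⟨z, hz, h⟩
        refine ⟨enc z, hz, (enc_mem_Pw hPw).2 (un_sub hM hV hz), ?_⟩
        rw [enc_compl, ← enc_union]
        exact h
      · rintro ⟨z, hz, hzP, h⟩
        have h1 := hdec z hzP
        rw [← h1, enc_compl, ← enc_union] at h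
        refine ⟨dec z, ?_, h⟩
        rw [un, Set.mem_ofPred_eq, h1]
        exact hz

end sys

/-! ### Filters, by their codes -/

theorem enc_empty : enc ∅ = ∅ := by
  ext z
  rw [mem_enc]
  simp

/-- `D` is a filter. -/
def FilD (Pw D : ZFSet.{0}) : Prop :=
  Pn ∈ D ∧ ¬ ∅ ∈ D ∧ (∀ x ∈ D, ∀ y ∈ D, iD x y ∈ D) ∧ ∀ x ∈ D, ∀ y ∈ Pw, x ⊆ y → y ∈ D

/-- `D` is an ultrafilter. -/
def UltD (Pw D : ZFSet.{0}) : Prop := FilD Pw D ∧ ∀ x ∈ Pw, x ∈ D ∨ cD x ∈ D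

/-- `D` is additive. -/
def AdvD (Pw PP D : ZFSet.{0}) : Prop :=
  ∀ V ∈ PP, UltD Pw V → D ⊆ V → ∀ x ∈ D, stD V x ∈ D

section fil

variable {M : Set ZFSet.{0}} (hM : IsZF M) {Pw : ZFSet.{0}} (hPM : Pw ∈ M)
  (hPw : ∀ z, z ∈ Pw ↔ z ∈ M ∧ z ⊆ Pn)

include hM hPM

theorem filD' {m : ℕ} {X : (Fin m → ZFSet.{0}) → ZFSet.{0}} (hX : DfnF M M X) :
    Dfn M M fun v => FilD Pw (X v) := by
  have hB := hM.base
  have hP := Pn_mem hM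
  have h0 := hM.empty_mem
  unfold FilD
  apply Dfn.and (Dfn.mem (DfnF.const hP) hX)
  apply Dfn.and (Dfn.mem (DfnF.const h0) hX).not
  apply Dfn.and
  · apply hB.ball hX
    apply hB.ball hX.tail
    exact Dfn.mem (iD' hM (DfnF.proj 1) (DfnF.proj 0)) hX.tail.tail
  · apply hB.ball hX
    apply hB.ball (DfnF.const hPM)
    apply Dfn.imp (hB.subset' (DfnF.proj 1) (DfnF.proj 0))
    exact Dfn.mem (DfnF.proj 0) hX.tail.tail

theorem ultD' {m : ℕ} {X : (Fin m → ZFSet.{0}) → ZFSet.{0}} (hX : DfnF M M X) :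
    Dfn M M fun v => UltD Pw (X v) := by
  have hB := hM.base
  unfold UltD
  apply Dfn.and (filD' hM hPM hX)
  apply hB.ball (DfnF.const hPM)
  exact (Dfn.mem (DfnF.proj 0) hX.tail).or (Dfn.mem (cD' hM (DfnF.proj 0)) hX.tail)

theorem advD' {PP : ZFSet.{0}} (hPP : PP ∈ M) {m : ℕ} {X : (Fin m → ZFSet.{0}) → ZFSet.{0}}
    (hX : DfnF M M X) : Dfn M M fun v => AdvD Pw PP (X v) := by
  have hB := hM.base
  unfold AdvD
  apply hB.ball (DfnF.const hPP)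
  apply Dfn.imp (ultD' hM hPM (DfnF.proj 0))
  apply Dfn.imp (hB.subset' hX.tail (DfnF.proj 0))
  apply hB.ball hX.tail
  exact Dfn.mem (stD' hM (DfnF.proj 1) (DfnF.proj 0)) hX.tail.tail

include hPw

omit hPM in
theorem fa_norm {H : Set (Set ℕ+)} (h : H ∈ Fa M) (hPM : Pw ∈ M) :
    ∃ D ∈ M, D ⊆ Pw ∧ H = un D := by
  obtain ⟨D, hD, rfl⟩ := h
  refine ⟨iD D Pw, memC (iD' hM (DfnF.const hD) (DfnF.const hPM)),
    fun z hz => (ZFSet.mem_sep.1 hz).2, ?_⟩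
  ext a
  rw [un, un, Set.mem_ofPred_eq, Set.mem_ofPred_eq, iD, ZFSet.mem_sep, enc_mem_Pw hPw]
  exact ⟨fun h => ⟨h, hM.trans _ hD _ h⟩, fun h => h.1⟩

omit hM hPM in
theorem un_subset {D E : ZFSet.{0}} (hD : D ⊆ Pw) : un D ⊆ un E ↔ D ⊆ E := by
  constructor
  · intro h z hz
    have h1 := enc_dec ((hPw z).1 (hD hz)).2
    rw [← h1] at hz ⊢
    exact h hz
  · exact fun h a ha => @h (enc a) ha

omit hPM in
theorem filD_iff {D : ZFSet.{0}} (hD : D ⊆ Pw) : FilD Pw D ↔ Fil (Re M) (un D) := by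
  have hdec : ∀ y ∈ Pw, enc (dec y) = y := fun y hy => enc_dec ((hPw y).1 hy).2
  constructor
  · rintro ⟨h1, h2, h3, h4⟩
    refine ⟨fun a ha => (enc_mem_Pw hPw).1 (hD ha), h1, ?_, ?_, ?_⟩
    · intro h
      rw [un, Set.mem_ofPred_eq, enc_empty] at h
      exact h2 h
    · intro a ha b hb
      rw [un, Set.mem_ofPred_eq, ← enc_inter]
      exact h3 _ ha _ hb
    · intro a ha b hb hab
      exact h4 _ ha _ ((enc_mem_Pw hPw).2 hb) (enc_sub_enc.2 hab)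
  · rintro ⟨-, h1, h2, h3, h4⟩
    refine ⟨h1, fun h => h2 ?_, ?_, ?_⟩
    · rw [un, Set.mem_ofPred_eq, enc_empty]
      exact h
    · intro x hx y hy
      have h5 := hdec x (hD hx)
      have h6 := hdec y (hD hy)
      rw [← h5] at hx
      rw [← h6] at hy
      rw [← h5, ← h6, enc_inter]
      exact h3 _ hx _ hy
    · intro x hx y hy hxy
      have h5 := hdec x (hD hx)
      have h6 := hdec y hy
      rw [← h5] at hx hxy
      rw [← h6] at hxy hy ⊢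
      exact h4 _ hx _ ((enc_mem_Pw hPw).1 hy) (enc_sub_enc.1 hxy)

omit hPM in
theorem ultD_iff {D : ZFSet.{0}} (hD : D ⊆ Pw) : UltD Pw D ↔ Ult (Re M) (un D) := by
  have hdec : ∀ y ∈ Pw, enc (dec y) = y := fun y hy => enc_dec ((hPw y).1 hy).2
  constructor
  · rintro ⟨h1, h2⟩
    refine ⟨(filD_iff hM hPw hD).1 h1, fun a ha => ?_⟩
    have h3 := h2 _ ((enc_mem_Pw hPw).2 ha)
    rw [enc_compl] at h3
    exact h3
  · rintro ⟨h1, h2⟩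
    refine ⟨(filD_iff hM hPw hD).2 h1, fun x hx => ?_⟩
    have h5 := hdec x hx
    rw [← h5] at hx ⊢
    rw [enc_compl]
    exact h2 _ ((enc_mem_Pw hPw).1 hx)

theorem advD_iff {PP : ZFSet.{0}} (hPP : ∀ z, z ∈ PP ↔ z ∈ M ∧ z ⊆ Pw) {D : ZFSet.{0}}
    (hD : D ⊆ Pw) : AdvD Pw PP D ↔ Adv (Re M) (Fa M) (un D) := by
  have hdec : ∀ y ∈ Pw, enc (dec y) = y := fun y hy => enc_dec ((hPw y).1 hy).2
  constructor
  · intro h V hV hVU hDV a ha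
    obtain ⟨E, hE, hEP, rfl⟩ := fa_norm hM hPw hV hPM
    have h1 := h E ((hPP E).2 ⟨hE, hEP⟩) ((ultD_iff hM hPw hEP).2 hVU)
      ((un_subset hPw hD).1 hDV) (enc a) ha
    rw [enc_st] at h1
    exact h1
  · intro h V hV hVU hDV x hx
    obtain ⟨hVM, hVP⟩ := (hPP V).1 hV
    have h5 := hdec x (hD hx)
    rw [← h5] at hx ⊢
    rw [enc_st]
    exact h _ ⟨V, hVM, rfl⟩ ((ultD_iff hM hPw hVP).1 hVU) ((un_subset hPw hD).2 hDV) _ hx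

/-- Maximal filters with a property. -/
theorem zor_gen {e : ZFSet.{0} → ZFSet.{0}} (hg : GC M e) {PP : ZFSet.{0}} (hPPM : PP ∈ M)
    (hPP : ∀ z, z ∈ PP ↔ z ∈ M ∧ z ⊆ Pw) {R : ZFSet.{0} → Prop}
    (hR : Dfn M M fun w : Fin 1 → ZFSet.{0} => R (w 0))
    (hRu : ∀ K ∈ M, (∀ D ∈ K, R D) → R (ZFSet.sUnion K)) {D₀ : ZFSet.{0}} (h₀ : D₀ ∈ M)
    (h₀P : D₀ ⊆ Pw) (h₀F : FilD Pw D₀) (h₀R : R D₀) : ∃ D ∈ M, D ⊆ Pw ∧ FilD Pw D ∧ R D ∧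
      D₀ ⊆ D ∧ ∀ E ∈ M, E ⊆ Pw → FilD Pw E → R E → D ⊆ E → E ⊆ D := by
  have hB := hM.base
  have hmT : ∀ D, D ∈ ZFSet.sep (fun D => FilD Pw D ∧ R D ∧ D₀ ⊆ D) PP ↔
      D ∈ M ∧ D ⊆ Pw ∧ FilD Pw D ∧ R D ∧ D₀ ⊆ D := by
    intro D
    rw [ZFSet.mem_sep, hPP, and_assoc]
  have hT : ZFSet.sep (fun D => FilD Pw D ∧ R D ∧ D₀ ⊆ D) PP ∈ M := by
    refine hM.sep_mem (Q := fun D => FilD Pw D ∧ R D ∧ D₀ ⊆ D) ?_ hPPM
    exact (filD' hM hPM (DfnF.proj 0)).and (hR.and (hB.subset' (DfnF.const h₀) (DfnF.proj 0)))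
  obtain ⟨D, hD, hmax⟩ := zornC hM hg hT ⟨D₀, (hmT _).2 ⟨h₀, h₀P, h₀F, h₀R, fun _ h => h⟩⟩ (by
    intro K hK hKT hne hch
    have hKs : ∀ D ∈ K, D ∈ M ∧ D ⊆ Pw ∧ FilD Pw D ∧ R D ∧ D₀ ⊆ D := fun D hD =>
      (hmT D).1 (hKT hD)
    obtain ⟨D₁, hD₁⟩ := hne
    refine (hmT _).2 ⟨hM.union _ hK, ?_, ⟨?_, ?_, ?_, ?_⟩,
      hRu K hK fun D hD => (hKs D hD).2.2.2.1, ?_⟩
    · intro z hz
      obtain ⟨D, hD, hz⟩ := ZFSet.mem_sUnion.1 hz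
      exact (hKs D hD).2.1 hz
    · exact ZFSet.mem_sUnion.2 ⟨D₁, hD₁, (hKs D₁ hD₁).2.2.1.1⟩
    · intro h
      obtain ⟨D, hD, hz⟩ := ZFSet.mem_sUnion.1 h
      exact (hKs D hD).2.2.1.2.1 hz
    · intro x hx y hy
      obtain ⟨D, hD, hx⟩ := ZFSet.mem_sUnion.1 hx
      obtain ⟨E, hE, hy⟩ := ZFSet.mem_sUnion.1 hy
      rcases hch D hD E hE with h | h
      · exact ZFSet.mem_sUnion.2 ⟨E, hE, (hKs E hE).2.2.1.2.2.1 _ (h hx) _ hy⟩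
      · exact ZFSet.mem_sUnion.2 ⟨D, hD, (hKs D hD).2.2.1.2.2.1 _ hx _ (h hy)⟩
    · intro x hx y hy hxy
      obtain ⟨D, hD, hx⟩ := ZFSet.mem_sUnion.1 hx
      exact ZFSet.mem_sUnion.2 ⟨D, hD, (hKs D hD).2.2.1.2.2.2 _ hx _ hy hxy⟩
    · exact fun z hz => ZFSet.mem_sUnion.2 ⟨D₁, hD₁, (hKs D₁ hD₁).2.2.2.2 hz⟩)
  obtain ⟨h1, h2, h3, h4, h5⟩ := (hmT D).1 hD
  exact ⟨D, h1, h2, h3, h4, h5, fun E hE hEP hEF hER hDE => hmax E
    ((hmT E).2 ⟨hE, hEP, hEF, hER, fun _ h => hDE (h5 h)⟩) hDE⟩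

end fil

theorem zorM {M : Set ZFSet.{0}} (hM : IsZF M) {e : ZFSet.{0} → ZFSet.{0}} (hg : GC M e) :
    Zor (Re M) (Fa M) := by
  obtain ⟨Pw, hPM, hPw⟩ := hM.exists_pow (Pn_mem hM)
  obtain ⟨PP, hPPM, hPP⟩ := hM.exists_pow hPM
  constructor
  · intro H hH hHF
    obtain ⟨D₀, h1, h2, rfl⟩ := fa_norm hM hPw hH hPM
    obtain ⟨D, hD, hDP, hDF, -, h3, h4⟩ := zor_gen hM hPM hPw hg hPPM hPP (R := fun _ => True)
      (Dfn.prop _) (fun _ _ _ => trivial) h1 h2 ((filD_iff hM hPw h2).2 hHF) trivial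
    refine ⟨un D, ⟨D, hD, rfl⟩, (filD_iff hM hPw hDP).1 hDF, (un_subset hPw h2).2 h3, ?_⟩
    intro W hW hWF hDW
    obtain ⟨E, hE, hEP, rfl⟩ := fa_norm hM hPw hW hPM
    exact (un_subset hPw hEP).2 (h4 E hE hEP ((filD_iff hM hPw hEP).2 hWF) trivial
      ((un_subset hPw hDP).1 hDW))
  · intro H hH hHF hHA
    obtain ⟨D₀, h1, h2, rfl⟩ := fa_norm hM hPw hH hPM
    obtain ⟨D, hD, hDP, hDF, hDA, h3, h4⟩ := zor_gen hM hPM hPw hg hPPM hPP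
      (R := fun D => AdvD Pw PP D) (advD' hM hPM hPPM (DfnF.proj 0)) (by
        intro K _ hK V hV hVU hKV x hx
        obtain ⟨D, hD, hx⟩ := ZFSet.mem_sUnion.1 hx
        exact ZFSet.mem_sUnion.2 ⟨D, hD, hK D hD V hV hVU
          (fun z hz => hKV (ZFSet.mem_sUnion.2 ⟨D, hD, hz⟩)) x hx⟩)
      h1 h2 ((filD_iff hM hPw h2).2 hHF) ((advD_iff hM hPM hPw hPP h2).2 hHA)
    refine ⟨un D, ⟨D, hD, rfl⟩, (filD_iff hM hPw hDP).1 hDF,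
      (advD_iff hM hPM hPw hPP hDP).1 hDA, (un_subset hPw h2).2 h3, ?_⟩
    intro W hW hWF hWA hDW
    obtain ⟨E, hE, hEP, rfl⟩ := fa_norm hM hPw hW hPM
    exact (un_subset hPw hEP).2 (h4 E hE hEP ((filD_iff hM hPw hEP).2 hWF)
      ((advD_iff hM hPM hPw hPP hEP).2 hWA) ((un_subset hPw hDP).1 hDW))

end Run7.h699.AddF
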