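import Pool.Agent.W868.Eo
import Pool.Agent.R602.IU.Stat
import Pool.Agent.Run7.h699.AddF.Abs

/-!
# Sets of positive natural numbers in a transitive model of ZF
-/

set_option autoImplicit false

namespace Run7.h699.AddF

open Pool.Agent.W868 Pool.Agent.R602.IU
open ZFSet (pair)

theorem mem_enc {a : Set ℕ+} {z : ZFSet.{0}} : z ∈ enc a ↔ ∃ n ∈ a, z = nat (n : ℕ) := by
  rw [enc, ZFSet.mem_sep]
  refine ⟨fun h => h.2, fun h => ⟨?_, h⟩⟩
  obtain ⟨n, -, rfl⟩ := h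
  exact nat_mem_omega _

theorem nat_mem_enc {a : Set ℕ+} {n : ℕ+} : nat (n : ℕ) ∈ enc a ↔ n ∈ a := by
  rw [mem_enc]
  constructor
  · rintro ⟨m, hm, h⟩
    have h1 : n = m := PNat.coe_injective (nat_injective h)
    exact h1 ▸ hm
  · exact fun h => ⟨n, h, rfl⟩

/-- The set of all positive natural numbers. -/
noncomputable def Pn : ZFSet.{0} := enc Set.univ

theorem mem_Pn {z : ZFSet.{0}} : z ∈ Pn ↔ ∃ n : ℕ+, z = nat (n : ℕ) := by
  rw [Pn, mem_enc]
  simp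

theorem enc_sub (a : Set ℕ+) : enc a ⊆ Pn := by
  intro z hz
  obtain ⟨n, -, rfl⟩ := mem_enc.1 hz
  exact mem_Pn.2 ⟨n, rfl⟩

theorem enc_eq {a : Set ℕ+} {x : ZFSet.{0}} (hx : x ⊆ Pn)
    (h : ∀ n : ℕ+, nat (n : ℕ) ∈ x ↔ n ∈ a) : x = enc a := by
  ext z
  rw [mem_enc]
  constructor
  · intro hz
    obtain ⟨n, rfl⟩ := mem_Pn.1 (hx hz)
    exact ⟨n, (h n).1 hz, rfl⟩
  · rintro ⟨n, hn, rfl⟩
    exact (h n).2 hn

/-- The set of natural numbers with the code `x`. -/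
def dec (x : ZFSet.{0}) : Set ℕ+ := {n | nat (n : ℕ) ∈ x}

theorem enc_dec {x : ZFSet.{0}} (hx : x ⊆ Pn) : enc (dec x) = x :=
  (enc_eq hx fun _ => Iff.rfl).symm

theorem enc_sub_enc {a b : Set ℕ+} : enc a ⊆ enc b ↔ a ⊆ b := by
  constructor
  · exact fun h n hn => nat_mem_enc.1 (h (nat_mem_enc.2 hn))
  · intro h z hz
    obtain ⟨n, hn, rfl⟩ := mem_enc.1 hz
    exact nat_mem_enc.2 (h hn)

theorem enc_inj {a b : Set ℕ+} (h : enc a = enc b) : a = b := by
  ext n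
  rw [← nat_mem_enc (a := a), h, nat_mem_enc]

theorem enc_union (a b : Set ℕ+) : enc (a ∪ b) = enc a ∪ enc b := by
  symm
  apply enc_eq
  · intro z hz
    rcases ZFSet.mem_union.1 hz with h | h
    · exact enc_sub _ h
    · exact enc_sub _ h
  · intro n
    rw [ZFSet.mem_union, nat_mem_enc, nat_mem_enc]
    rfl

/-- Intersection. -/
noncomputable def iD (x y : ZFSet.{0}) : ZFSet.{0} := ZFSet.sep (fun z => z ∈ y) x

theorem enc_inter (a b : Set ℕ+) : iD (enc a) (enc b) = enc (a ∩ b) := by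
  apply enc_eq
  · exact fun z hz => enc_sub _ (ZFSet.mem_sep.1 hz).1
  · intro n
    rw [iD, ZFSet.mem_sep, nat_mem_enc, nat_mem_enc]
    rfl

/-- The complement. -/
noncomputable def cD (x : ZFSet.{0}) : ZFSet.{0} := ZFSet.sep (fun z => ¬ z ∈ x) Pn

theorem cD_sub (x : ZFSet.{0}) : cD x ⊆ Pn := fun _ hz => (ZFSet.mem_sep.1 hz).1

theorem enc_compl (a : Set ℕ+) : cD (enc a) = enc aᶜ := by
  apply enc_eq (cD_sub _)
  intro n
  rw [cD, ZFSet.mem_sep, nat_mem_enc]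
  exact ⟨fun h => h.2, fun h => ⟨mem_Pn.2 ⟨n, rfl⟩, h⟩⟩

/-! ### Addition -/

/-- One step in the definition of the graph of addition. -/
noncomputable def aT (X : ZFSet.{0}) : ZFSet.{0} :=
  im (fun p => pair (pair (fs (fs p)) (insert (sn (fs p)) (sn (fs p)))) (insert (sn p) (sn p))) X

/-- The graph of addition. -/
noncomputable def Add : ZFSet.{0} :=
  itr aT (im (fun k => pair (pair k ∅) k) ZFSet.omega) ZFSet.omega

theorem itr_aT (z p : ZFSet.{0})
    (h : p ∈ itr aT (im (fun k => pair (pair k ∅) k) ZFSet.omega) z) :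
    ∃ m l : ℕ, p = pair (pair (nat m) (nat l)) (nat (m + l)) := by
  induction z using ZFSet.inductionOn generalizing p with
  | _ z ih =>
  rcases mem_itr.1 h with h | ⟨u, hu, h⟩
  · obtain ⟨k, hk, rfl⟩ := mem_im.1 h
    obtain ⟨m, rfl⟩ := mem_omega_iff.1 hk
    exact ⟨m, 0, rfl⟩
  · obtain ⟨q, hq, rfl⟩ := mem_im.1 h
    obtain ⟨m, l, rfl⟩ := ih u hu q hq
    refine ⟨m, l + 1, ?_⟩
    simp only [fs_pair, sn_pair]
    rfl

theorem mem_Add' (m l : ℕ) : pair (pair (nat m) (nat l)) (nat (m + l)) ∈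
    itr aT (im (fun k => pair (pair k ∅) k) ZFSet.omega) (nat l) := by
  induction l with
  | zero => exact itr_base (mem_im.2 ⟨nat m, nat_mem_omega m, rfl⟩)
  | succ l ih =>
    refine itr_step (u := nat l) (ZFSet.mem_insert _ _) (mem_im.2 ⟨_, ih, ?_⟩)
    simp only [fs_pair, sn_pair]
    rfl

theorem mem_Add {m n : ℕ} {y : ZFSet.{0}} :
    pair (pair (nat m) (nat n)) y ∈ Add ↔ y = nat (m + n) := by
  constructor
  · intro h
    obtain ⟨m', l, h1⟩ := itr_aT _ _ h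
    obtain ⟨h2, h3⟩ := ZFSet.pair_inj.1 h1
    obtain ⟨h4, h5⟩ := ZFSet.pair_inj.1 h2
    rw [h3, nat_injective h4, nat_injective h5]
  · rintro rfl
    exact itr_mono nat_subset_omega (mem_Add' m n)

/-- The shifted set. -/
noncomputable def shD (x n : ZFSet.{0}) : ZFSet.{0} :=
  ZFSet.sep (fun m => ∃ j ∈ x, pair (pair m n) j ∈ Add) Pn

theorem enc_sh (a : Set ℕ+) (n : ℕ+) : shD (enc a) (nat (n : ℕ)) = enc (sh a n) := by
  apply enc_eq
  · exact fun z hz => (ZFSet.mem_sep.1 hz).1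
  · intro m
    rw [shD, ZFSet.mem_sep, mem_sh]
    constructor
    · rintro ⟨-, j, hj, h⟩
      rw [mem_Add.1 h] at hj
      have h1 : nat ((m : ℕ) + n) = nat ((m + n : ℕ+) : ℕ) := by rw [PNat.add_coe]
      rw [h1] at hj
      exact nat_mem_enc.1 hj
    · intro h
      refine ⟨mem_Pn.2 ⟨m, rfl⟩, _, nat_mem_enc.2 h, mem_Add.2 ?_⟩
      rw [PNat.add_coe]

/-- The set of all `n` with `x - n ∈ V`. -/
noncomputable def stD (V x : ZFSet.{0}) : ZFSet.{0} := ZFSet.sep (fun n => shD x n ∈ V) Pn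

/-- The family of sets with the code `D`. -/
def un (D : ZFSet.{0}) : Set (Set ℕ+) := {a | enc a ∈ D}

theorem enc_st (V : ZFSet.{0}) (a : Set ℕ+) : stD V (enc a) = enc (st (un V) a) := by
  apply enc_eq
  · exact fun z hz => (ZFSet.mem_sep.1 hz).1
  · intro n
    rw [stD, ZFSet.mem_sep, enc_sh, mem_st]
    exact ⟨fun h => h.2, fun h => ⟨mem_Pn.2 ⟨n, rfl⟩, h⟩⟩

theorem nat_mem_nat {m n : ℕ} : nat m ∈ nat n ↔ m < n := by
  induction n with
  | zero => simp [nat]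
  | succ n ih =>
    rw [nat, ZFSet.mem_insert_iff, ih]
    constructor
    · rintro (h | h)
      · rw [nat_injective h]
        exact Nat.lt_succ_self _
      · omega
    · intro h
      rcases Nat.lt_succ_iff_lt_or_eq.1 h with h | h
      · exact Or.inr h
      · exact Or.inl (by rw [h])

/-- The finite unions of shifts of `x`. -/
noncomputable def uD (x y k : ZFSet.{0}) : ZFSet.{0} :=
  ZFSet.sep (fun m => ∃ n ∈ y, n ∈ k ∧ m ∈ shD x n) Pn

theorem enc_u (a y : Set ℕ+) (k : ℕ) :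
    uD (enc a) (enc y) (nat k) = enc {m | ∃ n ∈ y, (n : ℕ) < k ∧ m + n ∈ a} := by
  apply enc_eq
  · exact fun z hz => (ZFSet.mem_sep.1 hz).1
  · intro m
    rw [uD, ZFSet.mem_sep]
    constructor
    · rintro ⟨-, n', hn', hnk, hm⟩
      obtain ⟨n, hn, rfl⟩ := mem_enc.1 hn'
      rw [enc_sh, nat_mem_enc] at hm
      exact ⟨n, hn, nat_mem_nat.1 hnk, hm⟩
    · rintro ⟨n, hn, hnk, hm⟩
      refine ⟨mem_Pn.2 ⟨m, rfl⟩, _, nat_mem_enc.2 hn, nat_mem_nat.2 hnk, ?_⟩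
      rw [enc_sh, nat_mem_enc]
      exact hm

/-! ### Definability -/

section dfn

variable {M : Set ZFSet.{0}} (hM : IsZF M) {m : ℕ}
  {X Y N K V : (Fin m → ZFSet.{0}) → ZFSet.{0}}

include hM

theorem Pn_mem : Pn ∈ M := by
  have h1 : ZFSet.sep (fun z => ¬ z = ∅) ZFSet.omega = Pn := by
    ext z
    rw [ZFSet.mem_sep, mem_Pn, mem_omega_iff]
    constructor
    · rintro ⟨⟨n, rfl⟩, h⟩
      rcases Nat.eq_zero_or_pos n with rfl | h1
      · exact absurd rfl h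
      · exact ⟨⟨n, h1⟩, rfl⟩
    · rintro ⟨n, rfl⟩
      refine ⟨⟨n, rfl⟩, fun h => ?_⟩
      have h2 : nat (n : ℕ) = nat 0 := h
      exact n.ne_zero (nat_injective h2)
  rw [← h1]
  exact hM.sep_mem (Q := fun z => ¬ z = ∅)
    (Dfn.eq (DfnF.proj 0) (DfnF.const hM.empty_mem)).not hM.infinity

theorem Add_mem : Add ∈ M := by
  have hB := hM.base
  refine itr_mem_M hM ?_ hM.infinity ?_
  · refine hM.im_mem (h := fun k => pair (pair k ∅) k) hM.infinity ?_
    exact hB.pair' (hB.pair' (DfnF.proj 0) (DfnF.const hM.empty_mem)) (DfnF.proj 0)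
  · unfold aT
    refine hM.im' (h := fun p _ => pair (pair (fs (fs p)) (insert (sn (fs p)) (sn (fs p))))
      (insert (sn p) (sn p))) (DfnF.proj 0) ?_
    have h1 : DfnF M M fun w : Fin 2 → ZFSet.{0} => fs (w 0) := hM.fs' (DfnF.proj 0)
    have h2 : DfnF M M fun w : Fin 2 → ZFSet.{0} => sn (w 0) := hM.sn' (DfnF.proj 0)
    have h3 := hM.fs' h1
    have h4 := hM.sn' h1
    exact hB.pair' (hB.pair' h3 (hB.insert' h4 h4)) (hB.insert' h2 h2)

theorem iD' (hX : DfnF M M X) (hY : DfnF M M Y) : DfnF M M fun v => iD (X v) (Y v) :=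
  hM.sep' (Q := fun z v => z ∈ Y v) hX (Dfn.mem (DfnF.proj 0) hY.tail)

theorem cD' (hX : DfnF M M X) : DfnF M M fun v => cD (X v) :=
  hM.sep' (F := fun _ => Pn) (Q := fun z v => ¬ z ∈ X v) (DfnF.const (Pn_mem hM))
    (Dfn.mem (DfnF.proj 0) hX.tail).not

theorem shD' (hX : DfnF M M X) (hN : DfnF M M N) : DfnF M M fun v => shD (X v) (N v) := by
  have hB := hM.base
  refine hM.sep' (F := fun _ => Pn) (Q := fun z v => ∃ j ∈ X v, pair (pair z (N v)) j ∈ Add)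
    (DfnF.const (Pn_mem hM)) ?_
  apply hB.bex hX.tail
  exact Dfn.mem (hB.pair' (hB.pair' (DfnF.proj 1) hN.tail.tail) (DfnF.proj 0))
    (DfnF.const (Add_mem hM))

theorem stD' (hV : DfnF M M V) (hX : DfnF M M X) : DfnF M M fun v => stD (V v) (X v) :=
  hM.sep' (F := fun _ => Pn) (Q := fun z v => shD (X v) z ∈ V v) (DfnF.const (Pn_mem hM))
    (Dfn.mem (shD' hM hX.tail (DfnF.proj 0)) hV.tail)

theorem uD' (hX : DfnF M M X) (hY : DfnF M M Y) (hK : DfnF M M K) :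
    DfnF M M fun v => uD (X v) (Y v) (K v) := by
  have hB := hM.base
  refine hM.sep' (F := fun _ => Pn) (Q := fun z v => ∃ n ∈ Y v, n ∈ K v ∧ z ∈ shD (X v) n)
    (DfnF.const (Pn_mem hM)) ?_
  apply hB.bex hY.tail
  apply Dfn.and
  · exact Dfn.mem (DfnF.proj 0) hK.tail.tail
  · exact Dfn.mem (DfnF.proj 1) (shD' hM hX.tail.tail (DfnF.proj 0))

end dfn

end Run7.h699.AddF
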