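import Pool.Agent.Run7.h699.AddF.Cl

/-!
# The inner model constructible from an additive filter and a set
-/

set_option autoImplicit false

namespace Run7.h699.AddF

open Pool.Agent.W868 Pool.Agent.R602.IU
open ZFSet (pair)

theorem GR_congr {A A' X : ZFSet.{0}} (h : ∀ u ∈ X, u ∈ A ↔ u ∈ A') {u a b : ZFSet.{0}}
    (hu : u ∈ X) : ∀ i : ℕ, GR A i u a b ↔ GR A' i u a b
  | 0 => Iff.rfl
  | 1 => Iff.rfl
  | 2 => Iff.rfl
  | 3 => Iff.rfl
  | 4 => Iff.rfl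
  | 5 => Iff.rfl
  | 6 => Iff.rfl
  | 7 => Iff.rfl
  | 8 => Iff.rfl
  | 9 => Iff.rfl
  | _ + 10 => h u hu

theorem step_congr {A A' X : ZFSet.{0}} (h : ∀ u ∈ X, u ∈ A ↔ u ∈ A') : step A X = step A' X := by
  ext y
  rw [mem_step, mem_step]
  refine or_congr Iff.rfl ?_
  unfold SR
  refine exists_congr fun i => and_congr_right fun _ => exists_congr fun a =>
    and_congr_right fun _ => exists_congr fun b => and_congr_right fun _ => forall_congr' fun u => ?_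
  refine iff_congr Iff.rfl (and_congr_right fun hu => GR_congr h hu i)

section

variable {M : Set ZFSet.{0}} (hM : IsZF M) {A : ZFSet.{0}} (hA : A ∈ M)

include hM hA

/-- The part of the predicate that belongs to the inner model. -/
theorem exists_part : ∃ A' ∈ M, (∀ z, z ∈ A' ↔ z ∈ A ∧ z ∈ LC M A) ∧ LC M A' = LC M A ∧
    IsLA A' (LC M A') := by
  refine ⟨ZFSet.sep (fun z => z ∈ LC M A) A, hM.sep_mem (dfn_LC hM hA) hA,
    fun z => ZFSet.mem_sep, ?_⟩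
  set A' := ZFSet.sep (fun z => z ∈ LC M A) A with hA'
  have hA'M : A' ∈ M := hM.sep_mem (dfn_LC hM hA) hA
  have hLv : ∀ ξ : ZFSet.{0}, ξ ∈ M → ξ.IsOrdinal → Lv A' ξ = Lv A ξ := by
    intro ξ
    induction ξ using ZFSet.inductionOn with
    | _ ξ ih =>
    intro h1 h2
    ext y
    rw [mem_Lv, mem_Lv]
    refine exists_congr fun u => and_congr_right fun hu => ?_
    have hu1 := hM.trans _ h1 _ hu
    have hu2 := h2.mem hu
    rw [ih u hu hu1 hu2, step_congr (A := A') (A' := A) (X := Lv A u) fun z hz => ?_]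
    rw [hA', ZFSet.mem_sep]
    exact ⟨fun h => h.1, fun h => ⟨h, u, hu1, hu2, hz⟩⟩
  have hLC : LC M A' = LC M A := by
    ext y
    constructor
    · rintro ⟨ξ, h1, h2, h3⟩
      rw [hLv ξ h1 h2] at h3
      exact ⟨ξ, h1, h2, h3⟩
    · rintro ⟨ξ, h1, h2, h3⟩
      rw [← hLv ξ h1 h2] at h3
      exact ⟨ξ, h1, h2, h3⟩
  refine ⟨hLC, ?_⟩
  obtain ⟨δ, hδ, hδo, h1⟩ := exists_level hM hA'M hA'M (Q := fun w z => w = z)
    (Dfn.eq (DfnF.proj 0) (DfnF.proj 1))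
  refine isLA_LC hM hA'M hδ hδo fun z hz => ?_
  have h2 : z ∈ LC M A' := by
    rw [hLC]
    exact (ZFSet.mem_sep.1 hz).2
  obtain ⟨w, hw, rfl⟩ := h1 z hz ⟨z, h2, rfl⟩
  exact hw

end

/-- The empty set is not an element of a code. -/
theorem empty_not_mem_enc (a : Set ℕ+) : ∅ ∉ enc a := by
  intro h
  obtain ⟨n, -, h1⟩ := mem_enc.1 h
  have h2 : nat 0 = nat (n : ℕ) := h1
  exact n.ne_zero (nat_injective h2).symm

theorem empty_mem_nat (n : ℕ+) : ∅ ∈ nat (n : ℕ) := by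
  have h : nat 0 ∈ nat (n : ℕ) := nat_mem_nat.2 n.pos
  exact h

/-- **Deciding a set**, for the families in `M`. -/
theorem mainF {M : Set ZFSet.{0}} (hM : IsZF M) {F : Set (Set ℕ+)} (hFQ : F ∈ Fa M)
    (hF : Fil (Re M) F) (hFA : Adv (Re M) (Fa M) F) {b : Set ℕ+} (hb : b ∈ Re M) :
    ∃ G ∈ Fa M, Fil (Re M) G ∧ Adv (Re M) (Fa M) G ∧ F ⊆ G ∧ (b ∈ G ∨ bᶜ ∈ G) := by
  obtain ⟨Pw, hPM, hPw⟩ := hM.exists_pow (Pn_mem hM)
  obtain ⟨D, hD, hDP, rfl⟩ := fa_norm hM hPw hFQ hPM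
  obtain ⟨A', hA', hAm, hLC, hLA⟩ := exists_part hM (hM.union_mem hD hb)
  have hC := hLA.zf
  have hsub : LC M A' ⊆ M := LC_subset hM hA'
  have hQ : Fa (LC M A') ⊆ Fa M := fun H ⟨E, hE, h⟩ => ⟨E, hsub hE, h⟩
  refine decide (sysM hM) (sysM hC) (zorM hC hLA.gc) (fun a ha => hsub ha) hQ hFQ hF hFA
    (b := b) ?_ ?_
  · have h1 : ZFSet.sep (fun z => ∅ ∈ z) A' = enc b := by
      ext z
      rw [ZFSet.mem_sep, hAm, ZFSet.mem_union]
      constructor
      · rintro ⟨⟨h1 | h1, -⟩, h2⟩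
        · rw [← enc_dec ((hPw z).1 (hDP h1)).2] at h2
          exact absurd h2 (empty_not_mem_enc _)
        · exact h1
      · intro hz
        obtain ⟨n, -, rfl⟩ := mem_enc.1 hz
        refine ⟨⟨Or.inr hz, ?_⟩, empty_mem_nat n⟩
        rw [← hLC]
        exact hC.nat_mem _
    have h2 : ZFSet.sep (fun z => ∅ ∈ z) A' ∈ LC M A' :=
      hC.sep_mem (Q := fun z => ∅ ∈ z) (Dfn.mem (DfnF.const hC.empty_mem) (DfnF.proj 0)) hLA.mem
    rw [h1] at h2
    exact h2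
  · refine ⟨A', hLA.mem, ?_⟩
    ext a
    constructor
    · rintro ⟨h1, h2⟩
      have h3 : enc a ∈ D := h1
      refine (hAm (enc a)).2 ⟨ZFSet.mem_union.2 (Or.inl h3), ?_⟩
      rw [← hLC]
      exact h2
    · intro h
      obtain ⟨h1, h2⟩ := (hAm (enc a)).1 h
      rw [← hLC] at h2
      refine ⟨?_, h2⟩
      rcases ZFSet.mem_union.1 h1 with h3 | h3
      · exact h3
      · obtain ⟨n, -, h4⟩ := mem_enc.1 h3
        have h5 := empty_mem_nat n
        rw [← h4] at h5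
        exact absurd h5 (empty_not_mem_enc _)

end Run7.h699.AddF
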